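import Pool.Agent.SecFillB48.DetMain

/-!
# Multisecant lines of determinantal schemes
-/

set_option autoImplicit false

open MvPolynomial

namespace Pool.Agent.Results.MP_b7a448_ag.DeterminantalSchemes

open Pool.Agent.SecFillB48

/-- Let `M` be an `m × (m + r)` matrix whose entry at `(i, j)` is a form of degree `c i - d j` on
`ℙ^N`, zero if this is negative, let `I` be the ideal generated by the maximal minors of `M`, and
let `X` be the scheme defined by `I`. Suppose that the minor of `m` columns `κ₀` with the greatest
`d j` is not zero, that `I` contains no nonzero form of degree less than `k` (`X` lies on no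
hypersurface of degree less than `k`), and that `k r ≤ N - 1`. Then every point `p` of `ℙ^N` lies
on a line `L` which lies in `X` or meets `X` in a scheme of length at least `k` (`OnSecant`): a
nonzero binary form of degree `k` divides the restriction to `L` of every element of `I`.
The case `m = 1` is that of an arbitrary list of `1 + r` forms. -/
theorem result (N k m r : ℕ) (hk : k * r + 1 ≤ N)
    (M : Matrix (Fin m) (Fin (m + r)) (MvPolynomial (Fin (N + 1)) ℂ))
    (c : Fin m → ℕ) (d : Fin (m + r) → ℕ)
    (hM : ∀ i j, (M i j).IsHomogeneous (c i - d j)) (hM0 : ∀ i j, c i < d j → M i j = 0)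
    (κ₀ : Fin m → Fin (m + r)) (hmax : ∀ j, j ∉ Set.range κ₀ → ∀ i, d j ≤ d (κ₀ i))
    (hdet : (M.submatrix id κ₀).det ≠ 0)
    (hX : ∀ F ∈ Ideal.span (Set.range fun κ : Fin m → Fin (m + r) => (M.submatrix id κ).det),
      F ≠ 0 → ∀ e, F.IsHomogeneous e → k ≤ e)
    (p : Fin (N + 1) → ℂ) (hp : p ≠ 0) :
    OnSecant k (fun κ : Fin m → Fin (m + r) => (M.submatrix id κ).det) p :=
  det_main (by omega) M c d hM hM0 κ₀ hmax hdet hX p hp

end Pool.Agent.Results.MP_b7a448_ag.DeterminantalSchemes
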