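import Pool.Agent.SecPf.Main

/-!
# Multisecant lines of Pfaffian schemes of codimension three
-/

set_option autoImplicit false

open MvPolynomial

namespace Pool.Agent.Results.MP_b7a448_ag.PfaffianSchemes

open Pool.Agent.SecFill Pool.Agent.SecPf

/-- Let `A` be a skew-symmetric matrix of size `2 r + 1` whose entry at `(x, y)` is zero or a form
of degree `s - a x - a y` on `ℙ^N`, let `I` be the ideal generated by the Pfaffians of the
principal submatrices of size `2 r` (`pfIdeal A`), and let `X` be the scheme defined by `I`. Suppose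
that the Pfaffian omitting an index `M` with `a M` minimal is not zero, that `I` contains no nonzero
form of degree less than `k` (`X` lies on no hypersurface of degree less than `k`), and that
`2 k ≤ N - 1`. Then through every point `p` of `ℙ^N` passes a line `L` which lies in `X` or meets
`X` in a scheme of length at least `k`: a nonzero binary form `h` of degree `k` divides the
restriction to `L` of every element of `I`. -/
theorem result (N k r : ℕ) (hk : 2 * k + 1 ≤ N)
    (A : Matrix (Fin (2 * r + 1)) (Fin (2 * r + 1)) (MvPolynomial (Fin (N + 1)) ℂ))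
    (hA : ∀ x y, A y x = - A x y) (s : ℤ) (a : Fin (2 * r + 1) → ℤ)
    (hdeg : ∀ x y, A x y ≠ 0 → ∃ n : ℕ, (n : ℤ) = s - a x - a y ∧ (A x y).IsHomogeneous n)
    (M : Fin (2 * r + 1)) (hM : ∀ x, a M ≤ a x)
    (hPf : ∃ f : Fin r × Bool ↪ Fin (2 * r + 1), (∀ x, f x ≠ M) ∧ pf (A.submatrix f f) ≠ 0)
    (hX : ∀ F ∈ pfIdeal (r := r) A, F ≠ 0 → ∀ e, F.IsHomogeneous e → k ≤ e)
    (p : Fin (N + 1) → ℂ) (hp : p ≠ 0) :
    ∃ v : Fin (N + 1) → ℂ, LinearIndependent ℂ ![p, v] ∧
      ∃ h : MvPolynomial (Fin 2) ℂ, h.IsHomogeneous k ∧ h ≠ 0 ∧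
        ∀ F ∈ pfIdeal (r := r) A, h ∣ onLine p v F := by
  refine main hk A hA (fun x => s - 2 * a x) (fun x y => ⟨s - a x - a y, by ring⟩)
    (fun x y hxy => ?_) M (fun x => ?_) hPf hX p hp
  · obtain ⟨n, hn, h⟩ := hdeg x y hxy
    exact ⟨n, by rw [hn]; ring, h⟩
  · have := hM x
    linarith

end Pool.Agent.Results.MP_b7a448_ag.PfaffianSchemes
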