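import Pool.Agent.SecFillB48.Main

/-!
# Multisecant lines of schemes with syzygies of low degree
-/

set_option autoImplicit false

open MvPolynomial

namespace Pool.Agent.Results.MP_b7a448_ag.SyzygyCriterion

open Pool.Agent.SecFillB48

/-- Let `X` be the scheme in `ℙ^N` defined by forms `f 0, …, f n` of degrees `d j`, where `f 0` is
nonzero of degree `k` and all nonzero `f j` have degree at least `k`. Suppose that there are `n`
linearly independent syzygies, the rows of `M`, of degrees `c i` (that is, `M i j` is a form of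
degree `c i - d j`, zero if this is negative), and let `e` be the sum of all `c i` minus the sum of
the `d j`, `j ≥ 1`. If `e ≤ N - 1` then every point `p` of `ℙ^N` lies on a line which lies in `X` or
meets `X` in a scheme of length at least `k` (`OnSecant`). -/
theorem result (N n k e : ℕ) (f : Fin (n + 1) → MvPolynomial (Fin (N + 1)) ℂ)
    (M : Matrix (Fin n) (Fin (n + 1)) (MvPolynomial (Fin (N + 1)) ℂ))
    (c : Fin n → ℕ) (d : Fin (n + 1) → ℕ)
    (hf : ∀ j, (f j).IsHomogeneous (d j)) (h0 : f 0 ≠ 0) (hk : d 0 = k)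
    (hmin : ∀ j, f j ≠ 0 → k ≤ d j)
    (hM : ∀ i j, (M i j).IsHomogeneous (c i - d j)) (hM0 : ∀ i j, c i < d j → M i j = 0)
    (hMf : ∀ i, ∑ j, M i j * f j = 0)
    (hind : LinearIndependent (MvPolynomial (Fin (N + 1)) ℂ) (fun i => M i))
    (he : e + ∑ l : Fin n, d l.succ = ∑ i, c i) (hN : e + 1 ≤ N)
    (p : Fin (N + 1) → ℂ) (hp : p ≠ 0) : OnSecant k f p := by
  subst hk
  have hdet : (M.submatrix id Fin.succ).det ≠ 0 := by
    intro hz
    obtain ⟨w, hw, hwA⟩ := Matrix.exists_vecMul_eq_zero_iff.2 hz
    apply hw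
    have hsucc : ∀ l : Fin n, ∑ i, w i * M i l.succ = 0 := by
      intro l
      have := congrFun hwA l
      simpa [Matrix.vecMul, dotProduct] using this
    have hzero : ∑ i, w i * M i 0 = 0 := by
      have h1 : ∑ i, w i * ∑ j, M i j * f j = 0 := by
        simp [hMf]
      have h2 : ∑ i, w i * ∑ j, M i j * f j = ∑ j, (∑ i, w i * M i j) * f j := by
        simp only [Finset.mul_sum, Finset.sum_mul]
        rw [Finset.sum_comm]
        refine Finset.sum_congr rfl fun j _ => Finset.sum_congr rfl fun i _ => by ring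
      rw [h2, Fin.sum_univ_succ] at h1
      simp only [hsucc, zero_mul, Finset.sum_const_zero, add_zero] at h1
      exact (mul_eq_zero.1 h1).resolve_right h0
    have hall : ∑ i, w i • M i = 0 := by
      funext j
      rw [Finset.sum_apply]
      simp only [Pi.smul_apply, smul_eq_mul, Pi.zero_apply]
      rcases Fin.eq_zero_or_eq_succ j with rfl | ⟨l, rfl⟩
      · exact hzero
      · exact hsucc l
    funext i
    exact Fintype.linearIndependent_iff.1 hind w hall i
  obtain ⟨v, hv, h, hh, hh0, hdvd⟩ := syzygies (e := e) (f 0) (fun l : Fin n => f l.succ)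
    (M.submatrix id Fin.succ) (fun i => M i 0) (d 0) c (fun l => d l.succ) (hf 0)
    (fun l => hf _) (fun i l => hM i l.succ) (fun i l => hM0 i l.succ) (fun i => hM i 0)
    (by
      intro i
      have h1 := hMf i
      rw [Fin.sum_univ_succ] at h1
      simp only [Matrix.submatrix_apply, id_eq]
      linear_combination h1)
    h0 (fun l => hmin _) hdet he (by omega) p hp
  refine ⟨v, hv, h, hh, hh0, fun F hF => hdvd F (Ideal.span_mono ?_ hF)⟩
  rintro _ ⟨j, rfl⟩
  rcases Fin.eq_zero_or_eq_succ j with rfl | ⟨l, rfl⟩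
  · exact ⟨none, rfl⟩
  · exact ⟨some l, rfl⟩

end Pool.Agent.Results.MP_b7a448_ag.SyzygyCriterion
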